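import Pool.Agent.V1178.MT.Defs

/-!
# Constructible motives over varying fields: definitions
-/

set_option autoImplicit false

open CategoryTheory Limits MonoidalCategory Pretriangulated Triangulated

namespace Pool.Agent.U435.UD

open Pool.Agent.Y116.MT

universe v u w

/-- The category of constructible motives over one field with its realisations: a rigid tensor
triangulated category, idempotent complete, with indecomposable unit, and realisations `R l`
(tensor cohomology theories, `H^i(X) = (R l).H (X[i])`). -/
structure MotCat (Λ : Type) (E : Λ → Type w) [∀ l, Field (E l)] where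
  /-- the objects -/
  C : Type u
  [cat : Category.{v} C]
  [preadditive : Preadditive C]
  [zero : HasZeroObject C]
  [shift : HasShift C ℤ]
  [shiftAdditive : ∀ n : ℤ, (shiftFunctor C n).Additive]
  [pretriangulated : Pretriangulated C]
  [triangulated : IsTriangulated C]
  [monoidal : MonoidalCategory C]
  [symmetric : SymmetricCategory C]
  [tensor : TensorTriangulated C]
  [monoidalPreadditive : MonoidalPreadditive C]
  [rigid : RightRigidCategory C]
  [idempotent : IsIdempotentComplete C]
  unit : ∀ e : 𝟙_ C ⟶ 𝟙_ C, e ≫ e = e → e = 0 ∨ e = 𝟙 _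
  /-- the realisations -/
  R : ∀ l, Realisation C (E l)

attribute [instance] MotCat.cat MotCat.preadditive MotCat.zero MotCat.shift MotCat.shiftAdditive
  MotCat.pretriangulated MotCat.triangulated MotCat.monoidal MotCat.symmetric MotCat.tensor
  MotCat.monoidalPreadditive MotCat.rigid MotCat.idempotent

variable {Λ : Type} {E : Λ → Type w} [∀ l, Field (E l)]

/-- There is a motivic t-structure. -/
def HasMotivic (M : MotCat.{v, u} Λ E) : Prop :=
  ∃ t : TStructure M.C, IsMotivic t M.R

/-- The cohomology of `A` for the realisation number `l` vanishes in degree `i`. -/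
def Van (M : MotCat.{v, u} Λ E) (l : Λ) (i : ℤ) (A : M.C) : Prop :=
  IsZero ((M.R l).H.obj (A⟦i⟧))

/-- The base change functor for an extension of fields: a faithful triangulated functor compatible
with the realisations. -/
structure BaseChange (M N : MotCat.{v, u} Λ E) where
  /-- the functor -/
  F : M.C ⥤ N.C
  [commShift : F.CommShift ℤ]
  [triangulated : F.IsTriangulated]
  [faithful : F.Faithful]
  real (l : Λ) : Nonempty (F ⋙ (N.R l).H ≅ (M.R l).H)

attribute [instance] BaseChange.commShift BaseChange.triangulated BaseChange.faithful

/-- Specialisation: for every distinguished triangle `A ⟶ F X ⟶ B ⟶ A⟦1⟧` over the big field, where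
`X` is an object over the small field, there is a distinguished triangle `A' ⟶ X' ⟶ B' ⟶ A'⟦1⟧` over
the small field such that `X` is a direct summand of `X'` and such that the cohomology of `A'`
(of `B'`) vanishes whenever the cohomology of `A` (of `B`) does. -/
def Specialises {M N : MotCat.{v, u} Λ E} (b : BaseChange M N) : Prop :=
  ∀ (X : M.C) (A B : N.C) (f : A ⟶ b.F.obj X) (g : b.F.obj X ⟶ B) (h : B ⟶ A⟦(1 : ℤ)⟧),
    Triangle.mk f g h ∈ distTriang N.C →
    ∃ (X' A' B' : M.C) (f' : A' ⟶ X') (g' : X' ⟶ B') (h' : B' ⟶ A'⟦(1 : ℤ)⟧) (i : X ⟶ X')
      (r : X' ⟶ X), Triangle.mk f' g' h' ∈ distTriang M.C ∧ i ≫ r = 𝟙 X ∧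
        (∀ l j, Van N l j A → Van M l j A') ∧ (∀ l j, Van N l j B → Van M l j B')

/-- The push-forward for a finite extension of fields: a triangulated right adjoint of the base
change functor, which detects the vanishing of the cohomology, such that the unit is a split
monomorphism and the counit is a split epimorphism. -/
structure PushForward {M N : MotCat.{v, u} Λ E} (b : BaseChange M N) where
  /-- the functor -/
  G : N.C ⥤ M.C
  [commShift : G.CommShift ℤ]
  [triangulated : G.IsTriangulated]
  /-- the adjunction -/
  adj : b.F ⊣ G
  van (l : Λ) (j : ℤ) (Y : N.C) : Van M l j (G.obj Y) ↔ Van N l j Y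
  unit_split (X : M.C) : IsSplitMono (adj.unit.app X)
  counit_split (Y : N.C) : IsSplitEpi (adj.counit.app Y)

attribute [instance] PushForward.commShift PushForward.triangulated

end Pool.Agent.U435.UD
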