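import Mathlib

/-!
# Embeddings of finitely generated fields in a universal domain
-/

set_option autoImplicit false
set_option linter.unusedSectionVars false

open IntermediateField

namespace Pool.Agent.U435.UD

universe x

variable {F : Type x} [Field F]

/-- The field extension is purely transcendental of finite transcendence degree. -/
def PurelyTr (F : Type x) [Field F] (K : Type x) [Field K] [Algebra F K] : Prop :=
  ∃ (n : ℕ) (y : Fin n → K), AlgebraicIndependent F y ∧ adjoin F (Set.range y) = ⊤

/-- The field extension has infinite transcendence degree. -/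
def InfTr (F : Type x) [Field F] (K : Type x) [Field K] [Algebra F K] : Prop :=
  ∀ n : ℕ, ∃ y : Fin n → K, AlgebraicIndependent F y

/-- A finitely generated extension is finite over a purely transcendental one. -/
lemma exists_base (K : Type x) [Field K] [Algebra F K] [Algebra.EssFiniteType F K] :
    ∃ t : Finset K, IsTranscendenceBasis F ((↑) : t → K) ∧
      Module.Finite (adjoin F (t : Set K)) K := by
  have ⟨s, hs⟩ := IntermediateField.fg_top F K
  have : Algebra.IsAlgebraic (Algebra.adjoin F (s : Set K)) K := by
    rw [← isAlgebraic_adjoin_iff_top, hs, Algebra.isAlgebraic_iff_isIntegral]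
    refine Algebra.isIntegral_of_surjective topEquiv.surjective
  have ⟨t, hts, ht⟩ := exists_isTranscendenceBasis_subset (R := F) (s : Set K)
  lift t to Finset K using s.finite_toSet.subset hts
  refine ⟨t, ht, ?_⟩
  apply +allowSynthFailures Algebra.finite_of_essFiniteType_of_isAlgebraic
  · exact .of_comp F _ _
  · convert! ht.isAlgebraic_field <;> simp

lemma purelyTr_adjoin {K : Type x} [Field K] [Algebra F K] (t : Finset K)
    (ht : AlgebraicIndependent F ((↑) : t → K)) : PurelyTr F (adjoin F (t : Set K)) := by
  have hmem : ∀ z : t, (z : K) ∈ adjoin F (t : Set K) := fun z => subset_adjoin F _ z.2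
  obtain ⟨y, hy⟩ : ∃ y : Fin t.card → adjoin F (t : Set K),
      ∀ i, (y i : K) = (t.equivFin.symm i : K) :=
    ⟨fun i => ⟨_, hmem (t.equivFin.symm i)⟩, fun _ => rfl⟩
  refine ⟨t.card, y, ?_, ?_⟩
  · have h1 : AlgebraicIndependent F (((↑) : t → K) ∘ t.equivFin.symm) :=
      ht.comp _ t.equivFin.symm.injective
    have h2 : (adjoin F (t : Set K)).val ∘ y = ((↑) : t → K) ∘ t.equivFin.symm := funext hy
    rw [← h2] at h1
    exact h1.of_comp
  · apply IntermediateField.map_injective (adjoin F (t : Set K)).val
    rw [adjoin_map, ← AlgHom.fieldRange_eq_map, IntermediateField.fieldRange_val]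
    congr 1
    ext z
    constructor
    · rintro ⟨_, ⟨i, rfl⟩, rfl⟩
      change (y i : K) ∈ (t : Set K)
      rw [hy]
      exact (t.equivFin.symm i).2
    · intro hz
      refine ⟨y (t.equivFin ⟨z, hz⟩), ⟨_, rfl⟩, ?_⟩
      change (y (t.equivFin ⟨z, hz⟩) : K) = z
      rw [hy, Equiv.symm_apply_apply]

/-- Finitely generated extensions embed in algebraically closed extensions of infinite
transcendence degree. -/
lemma exists_emb (K : Type x) [Field K] [Algebra F K] [Algebra.EssFiniteType F K] (Ω : Type x)
    [Field Ω] [Algebra F Ω] [IsAlgClosed Ω] (hΩ : InfTr F Ω) : Nonempty (K →ₐ[F] Ω) := by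
  obtain ⟨t, ht, _⟩ := exists_base (F := F) K
  obtain ⟨y, hy⟩ := hΩ t.card
  let e : t ≃ Fin t.card := t.equivFin
  have hy' : AlgebraicIndependent F (y ∘ e) := hy.comp _ e.injective
  let φ : Algebra.adjoin F (Set.range ((↑) : t → K)) →ₐ[F] Ω :=
    ((Algebra.adjoin F (Set.range (y ∘ e))).val).comp
      ((ht.1.aevalEquiv.symm.trans hy'.aevalEquiv : _ ≃ₐ[F] _) : _ →ₐ[F] _)
  have hφ : Function.Injective φ := by
    intro a b hab
    exact (ht.1.aevalEquiv.symm.trans hy'.aevalEquiv).injective (Subtype.val_injective hab)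
  let _ : Algebra (Algebra.adjoin F (Set.range ((↑) : t → K))) Ω := φ.toRingHom.toAlgebra
  have : FaithfulSMul (Algebra.adjoin F (Set.range ((↑) : t → K))) Ω :=
    (faithfulSMul_iff_algebraMap_injective _ _).2 hφ
  have : IsScalarTower F (Algebra.adjoin F (Set.range ((↑) : t → K))) Ω :=
    IsScalarTower.of_algebraMap_eq fun z => (φ.commutes z).symm
  have := ht.isAlgebraic
  exact ⟨(IsAlgClosed.lift (R := Algebra.adjoin F (Set.range ((↑) : t → K))) (S := K)
    (M := Ω)).restrictScalars F⟩

end Pool.Agent.U435.UD
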