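import Pool.Agent.U435.UD.Defs
import Pool.Agent.U735.TC.Main

/-!
# Motivic t-structures and base change
-/

set_option autoImplicit false
set_option linter.unusedSectionVars false
set_option linter.unusedVariables false
set_option linter.checkUnivs false
set_option backward.isDefEq.respectTransparency false
set_option backward.defeqAttrib.useBackward true

open CategoryTheory Limits MonoidalCategory Pretriangulated Triangulated ZeroObject

namespace Pool.Agent.U435.UD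

open Pool.Agent.Y116.MT Pool.Agent.V1178.MT Pool.Agent.U735.IL Pool.Agent.U735.TC

universe v u w

section

variable {C : Type u} [Category.{v} C] [Preadditive C] [HasZeroObject C] [HasShift C ℤ]
  [∀ n : ℤ, (shiftFunctor C n).Additive] [Pretriangulated C] [IsIdempotentComplete C]

/-- The part of `A` which belongs to the direct summand `X` of `Y`, for a triangle
`A ⟶ Y ⟶ B ⟶ A⟦1⟧` without morphisms from `A` and `A⟦1⟧` to `B`. -/
lemma split_part {A Y B X : C} {u : A ⟶ Y} {v : Y ⟶ B} {w : B ⟶ A⟦(1 : ℤ)⟧}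
    (hT : Triangle.mk u v w ∈ distTriang C) (h0 : ∀ k : A ⟶ B, k = 0)
    (h1 : ∀ k : A⟦(1 : ℤ)⟧ ⟶ B, k = 0) (i : X ⟶ Y) (r : Y ⟶ X) (hir : i ≫ r = 𝟙 X) :
    ∃ (A' : C) (i' : A' ⟶ A) (r' : A ⟶ A') (f : A' ⟶ X), i' ≫ r' = 𝟙 A' ∧ f ≫ i = i' ≫ u ∧
      u ≫ r ≫ i = r' ≫ i' ≫ u := by
  have inj : ∀ k : A ⟶ A, k ≫ u = 0 → k = 0 := by
    intro k hk
    have hk1 : k⟦(1 : ℤ)⟧' ≫ u⟦(1 : ℤ)⟧' = 0 := by
      rw [← Functor.map_comp, hk, Functor.map_zero]
    obtain ⟨m, hm⟩ := ce1 hT _ hk1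
    apply (shiftFunctor C (1 : ℤ)).map_injective
    rw [hm, h1 m, zero_comp, Functor.map_zero]
  obtain ⟨e, he⟩ := ce2 hT (u ≫ r ≫ i) (h0 _)
  have hee : e ≫ e = e := by
    rw [← sub_eq_zero]
    apply inj
    rw [Preadditive.sub_comp, Category.assoc, ← he]
    have : e ≫ u ≫ r ≫ i = u ≫ r ≫ i := by
      rw [← Category.assoc e, ← he]
      simp only [Category.assoc]
      rw [reassoc_of% hir]
    rw [this, sub_self]
  obtain ⟨A', i', r', h2, h3⟩ := IsIdempotentComplete.idempotents_split A e hee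
  refine ⟨A', i', r', i' ≫ u ≫ r, h2, ?_, ?_⟩
  · have h4 : i' ≫ e = i' := by rw [← h3, reassoc_of% h2]
    simp only [Category.assoc]
    rw [he, ← Category.assoc, h4]
  · rw [he, ← h3, Category.assoc]

end

section

variable {Λ : Type} {E : Λ → Type w} [∀ l, Field (E l)]

variable {M N : MotCat.{v, u} Λ E}

lemma MotCat.good (M : MotCat.{v, u} Λ E) {t : TStructure M.C} (h : IsMotivic t M.R) (l : Λ) :
    Good t (M.R l) := good_of_motivic M.unit h l

lemma Van.iso {l : Λ} {i : ℤ} {X Y : M.C} (h : Van M l i X) (e : X ≅ Y) : Van M l i Y :=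
  h.of_iso ((M.R l).H.mapIso ((shiftFunctor M.C i).mapIso e.symm))

lemma Van.retract {l : Λ} {n : ℤ} {X Y : M.C} (h : Van M l n X) (i : Y ⟶ X) (r : X ⟶ Y)
    (hir : i ≫ r = 𝟙 _) : Van M l n Y := by
  unfold Van at *
  rw [IsZero.iff_id_eq_zero]
  have h1 : 𝟙 ((M.R l).H.obj (Y⟦n⟧)) = (M.R l).H.map (i⟦n⟧') ≫ (M.R l).H.map (r⟦n⟧') := by
    rw [← Functor.map_comp, ← Functor.map_comp, hir, CategoryTheory.Functor.map_id,
      CategoryTheory.Functor.map_id]
  rw [h1, h.eq_of_tgt ((M.R l).H.map (i⟦n⟧')) 0, zero_comp]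

lemma van_zero_iff {l : Λ} {X : M.C} : Van M l 0 X ↔ IsZero ((M.R l).H.obj X) :=
  ((M.R l).H.mapIso ((shiftFunctorZero M.C ℤ).app X)).isZero_iff

lemma BaseChange.van (b : BaseChange M N) (l : Λ) (i : ℤ) (X : M.C) :
    Van N l i (b.F.obj X) ↔ Van M l i X := by
  obtain ⟨e⟩ := b.real l
  exact ((N.R l).H.mapIso ((b.F.commShiftIso i).app X).symm ≪≫ e.app (X⟦i⟧)).isZero_iff

/-- The degrees of an object in terms of the cohomology. -/
lemma le_iff {t : TStructure M.C} (h : IsMotivic t M.R) (l : Λ) (X : M.C) (n : ℤ) :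
    t.IsLE X n ↔ ∀ i : ℤ, n < i → Van M l i X :=
  ⟨fun hX i hi => (M.good h l).he.isLE hX i hi,
    fun hX => isLE_of (M.good h l).cons (M.good h l).he hX⟩

lemma ge_iff {t : TStructure M.C} (h : IsMotivic t M.R) (l : Λ) (X : M.C) (n : ℤ) :
    t.IsGE X n ↔ ∀ i : ℤ, i < n → Van M l i X :=
  ⟨fun hX i hi => (M.good h l).he.isGE hX i hi,
    fun hX => isGE_of (M.good h l).cons (M.good h l).he hX⟩

/-- The lowest truncation. -/
lemma lowest {t : TStructure M.C} (h : IsMotivic t M.R) (l : Λ) {X : M.C}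
    (hX : ∀ i : ℤ, i < 0 → Van M l i X) :
    ∃ (A B : M.C) (f : A ⟶ X) (g : X ⟶ B) (k : B ⟶ A⟦(1 : ℤ)⟧),
      Triangle.mk f g k ∈ distTriang M.C ∧ (∀ l' i, i ≠ 0 → Van M l' i A) ∧
        (∀ l' i, i < 1 → Van M l' i B) := by
  obtain ⟨A, B, hA, hB, f, g, k, hT⟩ := t.exists_triangle X 0 1 rfl
  have hX1 := (ge_iff h l X 0).2 hX
  have hA1 : t.IsLE A 0 := ⟨hA⟩
  have hB1 : t.IsGE B 1 := ⟨hB⟩
  have hA2 : t.IsGE A 0 := isGE1 hT hX1 (t.isGE_of_ge B (0 - 1) 1)
  refine ⟨A, B, f, g, k, hT, fun l' i hi => ?_, fun l' i hi => (ge_iff h l' B 1).1 hB1 i hi⟩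
  rcases lt_or_gt_of_ne hi with h1 | h1
  · exact (ge_iff h l' A 0).1 hA2 i h1
  · exact (le_iff h l' A 0).1 hA1 i h1

/-- A direct summand of an object with a lowest truncation. -/
lemma sub_of_retract {l : Λ} {X Y A B : M.C} {u : A ⟶ Y} {v : Y ⟶ B} {w : B ⟶ A⟦(1 : ℤ)⟧}
    (hT : Triangle.mk u v w ∈ distTriang M.C) (h0 : ∀ k : A ⟶ B, k = 0)
    (h1 : ∀ k : A⟦(1 : ℤ)⟧ ⟶ B, k = 0) (hA : ∀ l' i, i ≠ 0 → Van M l' i A)
    (hB : ∀ i, i < 1 → Van M l i B) (i : X ⟶ Y) (r : Y ⟶ X) (hir : i ≫ r = 𝟙 X)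
    (hX : ¬ IsZero ((M.R l).H.obj X)) :
    ∃ (A' : M.C) (f : A' ⟶ X), ¬ IsZero A' ∧
      (∀ (l' : Λ) (i : ℤ), i ≠ 0 → IsZero ((M.R l').H.obj (A'⟦i⟧))) ∧
        Mono ((M.R l).H.map f) := by
  obtain ⟨A', i', r', f, h2, h3, h4⟩ := split_part hT h0 h1 i r hir
  have hu : IsIso ((M.R l).H.map u) :=
    (vIso_zero_iff u).1 (VIso.of₃ hT (hB _ (by omega)) (hB _ (by omega)))
  refine ⟨A', f, fun hz => hX ?_, fun l' j hj => (hA l' j hj).retract i' r' h2, ?_⟩
  · have h5 : u ≫ r ≫ i = 0 := by rw [h4, hz.eq_of_src i' 0, zero_comp, comp_zero]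
    have h6 : (M.R l).H.map u ≫ (M.R l).H.map (r ≫ i) = 0 := by
      rw [← Functor.map_comp, h5, Functor.map_zero]
    have h7 : (M.R l).H.map (r ≫ i) = 0 := by
      rw [← cancel_epi ((M.R l).H.map u), h6, comp_zero]
    rw [IsZero.iff_id_eq_zero, ← CategoryTheory.Functor.map_id]
    have h8 : 𝟙 X = i ≫ (r ≫ i) ≫ r := by
      rw [Category.assoc, hir, Category.comp_id, hir]
    rw [h8, Functor.map_comp, Functor.map_comp, h7, zero_comp, comp_zero]
  · have h5 : Mono ((M.R l).H.map i') := by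
      have : (M.R l).H.map i' ≫ (M.R l).H.map r' = 𝟙 _ := by
        rw [← Functor.map_comp, h2, CategoryTheory.Functor.map_id]
      exact (SplitMono.mk _ this).mono
    have h6 : Mono ((M.R l).H.map f ≫ (M.R l).H.map i) := by
      rw [← Functor.map_comp, h3, Functor.map_comp]
      infer_instance
    exact mono_of_mono _ ((M.R l).H.map i)

/-- Descent of a motivic t-structure. -/
theorem descent [Nonempty Λ] (b : BaseChange M N) (hb : Specialises b) (h : HasMotivic N) :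
    HasMotivic M := by
  obtain ⟨t, ht⟩ := h
  obtain ⟨l⟩ := ‹Nonempty Λ›
  have hc : Conservative (M.R l) := by
    intro X hX
    have h1 : IsZero (b.F.obj X) := (N.good ht l).cons _ fun i => (b.van l i X).2 (hX i)
    rw [IsZero.iff_id_eq_zero]
    apply b.F.map_injective
    rw [Functor.map_zero]
    exact h1.eq_of_src _ _
  refine exists_motivic M.unit hc (l := l) ?_
  intro X hX hX0
  obtain ⟨A, B, f, g, k, hT, hA, hB⟩ := lowest ht l (X := b.F.obj X)
    fun i hi => (b.van l i X).2 (hX i hi)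
  obtain ⟨X', A', B', f', g', k', i, r, hT', hir, hA', hB'⟩ := hb X A B f g k hT
  have hA1 : ∀ l' j, j ≠ 0 → Van M l' j A' := fun l' j hj => hA' l' j (hA l' j hj)
  have hB1 : ∀ l' j, j < 1 → Van M l' j B' := fun l' j hj => hB' l' j (hB l' j hj)
  have hA2 : t.IsLE (b.F.obj A') 0 := (le_iff ht l _ 0).2 fun j hj =>
    (b.van l j A').2 (hA1 l j (by omega))
  have hA3 : t.IsLE (b.F.obj (A'⟦(1 : ℤ)⟧)) 0 := by
    refine (le_iff ht l _ 0).2 fun j hj => (b.van l j _).2 ?_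
    exact (hA1 l (1 + j) (by omega)).of_iso
      ((M.R l).H.mapIso ((shiftFunctorAdd M.C 1 j).app A').symm)
  have hB2 : t.IsGE (b.F.obj B') 1 := (ge_iff ht l _ 1).2 fun j hj =>
    (b.van l j B').2 (hB1 l j hj)
  refine sub_of_retract hT' (fun k => ?_) (fun k => ?_) hA1 (fun j hj => hB1 l j hj) i r hir hX0
  · apply b.F.map_injective
    rw [Functor.map_zero]
    exact t.zero _ 0 1 (by omega)
  · apply b.F.map_injective
    rw [Functor.map_zero]
    exact t.zero _ 0 1 (by omega)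

/-- Specialisation along a finite extension. -/
lemma PushForward.specialises {b : BaseChange M N} (P : PushForward b) : Specialises b := by
  intro X A B f g h hT
  obtain ⟨⟨r, hr⟩⟩ := P.unit_split X
  have hT' := P.G.map_distinguished _ hT
  exact ⟨_, _, _, _, _, _, P.adj.unit.app X, r, hT', hr, fun l j hj => (P.van l j A).2 hj,
    fun l j hj => (P.van l j B).2 hj⟩

/-- Ascent of a motivic t-structure along a finite extension. -/
theorem ascent [Nonempty Λ] {b : BaseChange M N} (P : PushForward b) (h : HasMotivic M) :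
    HasMotivic N := by
  obtain ⟨t, ht⟩ := h
  obtain ⟨l⟩ := ‹Nonempty Λ›
  have hc : Conservative (N.R l) := by
    intro Y hY
    have h1 : IsZero (P.G.obj Y) := (M.good ht l).cons _ fun i => (P.van l i Y).2 (hY i)
    obtain ⟨⟨s, hs⟩⟩ := P.counit_split Y
    have hs' : s ≫ P.adj.counit.app Y = 𝟙 Y := hs
    rw [IsZero.iff_id_eq_zero, ← hs', (b.F.map_isZero h1).eq_of_src (P.adj.counit.app Y) 0,
      comp_zero]
  refine exists_motivic N.unit hc (l := l) ?_
  intro Y hY hY0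
  obtain ⟨A, B, f, g, k, hT, hA, hB⟩ := lowest ht l (X := P.G.obj Y)
    fun i hi => (P.van l i Y).2 (hY i hi)
  have hT' := b.F.map_distinguished _ hT
  obtain ⟨⟨s, hs⟩⟩ := P.counit_split Y
  have hB2 : t.IsGE (P.G.obj (b.F.obj B)) 1 := (ge_iff ht l _ 1).2 fun j hj =>
    (P.van l j _).2 ((b.van l j B).2 (hB l j hj))
  have hA2 : t.IsLE A 0 := (le_iff ht l _ 0).2 fun j hj => hA l j (by omega)
  have hA3 : t.IsLE (A⟦(1 : ℤ)⟧) 0 := by
    refine (le_iff ht l _ 0).2 fun j hj => ?_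
    exact (hA l (1 + j) (by omega)).of_iso
      ((M.R l).H.mapIso ((shiftFunctorAdd M.C 1 j).app A).symm)
  have hz : ∀ (U : M.C) (k : b.F.obj U ⟶ b.F.obj B), t.IsLE U 0 → k = 0 := by
    intro U k hU
    apply (P.adj.homEquiv _ _).injective
    exact (t.zero _ 0 1 (by omega)).trans (t.zero _ 0 1 (by omega)).symm
  have hz : ∀ (U : M.C) (k : b.F.obj U ⟶ b.F.obj B), t.IsLE U 0 → k = 0 := by
    intro U k hU
    apply (P.adj.homEquiv _ _).injective
    exact (t.zero _ 0 1 (by omega)).trans (t.zero _ 0 1 (by omega)).symm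
  refine sub_of_retract hT' (fun k => ?_) (fun k => ?_)
    (fun l' j hj => (b.van l' j A).2 (hA l' j hj)) (fun j hj => (b.van l j B).2 (hB l j hj))
    s (P.adj.counit.app Y) hs hY0
  · exact hz _ k hA2
  · have h3 := hz _ (((b.F.commShiftIso (1 : ℤ)).app A).hom ≫ k) hA3
    rw [← cancel_epi ((b.F.commShiftIso (1 : ℤ)).app A).hom, comp_zero]
    exact h3

/-- A category all of whose objects come from categories with motivic t-structures. -/
theorem union [Nonempty Λ]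
    (h : ∀ Y : N.C, ∃ (M : MotCat.{v, u} Λ E) (b : BaseChange M N) (X : M.C),
      HasMotivic M ∧ Nonempty (b.F.obj X ≅ Y)) : HasMotivic N := by
  obtain ⟨l⟩ := ‹Nonempty Λ›
  have hc : Conservative (N.R l) := by
    intro Y hY
    obtain ⟨M, b, X, ⟨t, ht⟩, ⟨e⟩⟩ := h Y
    have h1 : IsZero X := (M.good ht l).cons _ fun i =>
      (b.van l i X).1 (Van.iso (M := N) (hY i) e.symm)
    exact (b.F.map_isZero h1).of_iso e.symm
  refine exists_motivic N.unit hc (l := l) ?_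
  intro Y hY hY0
  obtain ⟨M, b, X, ⟨t, ht⟩, ⟨e⟩⟩ := h Y
  have hX : ∀ i : ℤ, i < 0 → Van M l i X := fun i hi =>
    (b.van l i X).1 (Van.iso (M := N) (hY i hi) e.symm)
  obtain ⟨A, B, f, g, k, hT, hA, hB⟩ := lowest ht l hX
  have hT' := b.F.map_distinguished _ hT
  have hf : IsIso ((N.R l).H.map (b.F.map f)) :=
    (vIso_zero_iff (b.F.map f)).1 (VIso.of₃ hT' ((b.van l _ B).2 (hB l _ (by omega)))
      ((b.van l _ B).2 (hB l _ (by omega))))
  refine ⟨b.F.obj A, b.F.map f ≫ e.hom, fun hz => hY0 ?_,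
    fun l' j hj => (b.van l' j A).2 (hA l' j hj), ?_⟩
  · have h1 : IsZero ((N.R l).H.obj (b.F.obj A)) := (N.R l).H.map_isZero hz
    exact h1.of_iso ((asIso ((N.R l).H.map (b.F.map f))) ≪≫ (N.R l).H.mapIso e).symm
  · rw [Functor.map_comp]
    infer_instance

/-- The base change is t-exact and detects the degrees. -/
theorem exact [Nonempty Λ] (b : BaseChange M N) {t : TStructure M.C} {t' : TStructure N.C}
    (ht : IsMotivic t M.R) (ht' : IsMotivic t' N.R) (n : ℤ) (X : M.C) :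
    (t.le n X ↔ t'.le n (b.F.obj X)) ∧ (t.ge n X ↔ t'.ge n (b.F.obj X)) := by
  obtain ⟨l⟩ := ‹Nonempty Λ›
  constructor
  · have h1 := le_iff ht l X n
    have h2 := le_iff ht' l (b.F.obj X) n
    have h3 : (t.IsLE X n ↔ t'.IsLE (b.F.obj X) n) := by
      rw [h1, h2]
      exact forall₂_congr fun i _ => (b.van l i X).symm
    exact ⟨fun h => (h3.1 ⟨h⟩).le, fun h => (h3.2 ⟨h⟩).le⟩
  · have h1 := ge_iff ht l X n
    have h2 := ge_iff ht' l (b.F.obj X) n
    have h3 : (t.IsGE X n ↔ t'.IsGE (b.F.obj X) n) := by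
      rw [h1, h2]
      exact forall₂_congr fun i _ => (b.van l i X).symm
    exact ⟨fun h => (h3.1 ⟨h⟩).ge, fun h => (h3.2 ⟨h⟩).ge⟩

end

end Pool.Agent.U435.UD
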