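import Pool.Agent.U435.UD.Main
import Pool.Agent.U435.UD.Fld

/-!
# Motives over all extensions of a field
-/

set_option autoImplicit false
set_option linter.unusedSectionVars false
set_option linter.checkUnivs false

open CategoryTheory IntermediateField

namespace Pool.Agent.U435.UD

universe v u w x

/-- The categories of constructible motives over all extensions of a field `F` (all fields of one
characteristic, if `F` is a prime field), with the known properties of the base change:

* the base change functors are faithful, triangulated, compatible with the realisations, compatible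
  with the composition, and have the specialisation property;
* finite extensions have a push-forward;
* every object is defined over a finitely generated subextension. -/
structure FieldMotives (F : Type x) [Field F] (Λ : Type) (E : Λ → Type w)
    [∀ l, Field (E l)] where
  /-- the motives over `K` -/
  mot (K : Type x) [Field K] [Algebra F K] : MotCat.{v, u} Λ E
  /-- the base change -/
  bc {K L : Type x} [Field K] [Algebra F K] [Field L] [Algebra F L] (f : K →ₐ[F] L) :
    BaseChange (mot K) (mot L)
  comp {K L L' : Type x} [Field K] [Algebra F K] [Field L] [Algebra F L] [Field L']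
    [Algebra F L'] (f : K →ₐ[F] L) (g : L →ₐ[F] L') (X : (mot K).C) :
    Nonempty ((bc g).F.obj ((bc f).F.obj X) ≅ (bc (g.comp f)).F.obj X)
  spec {K L : Type x} [Field K] [Algebra F K] [Field L] [Algebra F L] (f : K →ₐ[F] L) :
    Specialises (bc f)
  push {K L : Type x} [Field K] [Algebra F K] [Field L] [Algebra F L] (f : K →ₐ[F] L) :
    f.toRingHom.Finite → Nonempty (PushForward (bc f))
  defined (K : Type x) [Field K] [Algebra F K] (Y : (mot K).C) :
    ∃ (s : Finset K) (X : (mot (adjoin F (s : Set K))).C),
      Nonempty ((bc (adjoin F (s : Set K)).val).F.obj X ≅ Y)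

variable {F : Type x} [Field F] {Λ : Type} {E : Λ → Type w} [∀ l, Field (E l)] [Nonempty Λ]
  (𝓜 : FieldMotives.{v, u, w, x} F Λ E)

/-- The existence of the motivic t-structure over `K`. -/
def FieldMotives.Has (K : Type x) [Field K] [Algebra F K] : Prop := HasMotivic (𝓜.mot K)

theorem FieldMotives.desc {K L : Type x} [Field K] [Algebra F K] [Field L] [Algebra F L]
    (f : K →ₐ[F] L) (h : 𝓜.Has L) : 𝓜.Has K := descent (𝓜.bc f) (𝓜.spec f) h

theorem FieldMotives.fin {K L : Type x} [Field K] [Algebra F K] [Field L] [Algebra F L]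
    (f : K →ₐ[F] L) (hf : f.toRingHom.Finite) (h : 𝓜.Has K) : 𝓜.Has L := by
  obtain ⟨P⟩ := 𝓜.push f hf
  exact ascent P h

/-- If the finitely generated subfields have motivic t-structures, so does the field. -/
theorem FieldMotives.of_fg (K : Type x) [Field K] [Algebra F K]
    (h : ∀ s : Finset K, 𝓜.Has (adjoin F (s : Set K))) : 𝓜.Has K := by
  refine union fun Y => ?_
  obtain ⟨s, X, hX⟩ := 𝓜.defined K Y
  exact ⟨_, 𝓜.bc (adjoin F (s : Set K)).val, X, h s, hX⟩

/-- Algebraic extensions. -/
theorem FieldMotives.alg (K L : Type x) [Field K] [Algebra F K] [Field L] [Algebra F L]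
    [Algebra K L] [IsScalarTower F K L] [Algebra.IsAlgebraic K L] : 𝓜.Has K ↔ 𝓜.Has L := by
  refine ⟨fun h => union fun Y => ?_, 𝓜.desc (IsScalarTower.toAlgHom F K L)⟩
  obtain ⟨s, X, ⟨e⟩⟩ := 𝓜.defined L Y
  let L' : IntermediateField K L := adjoin K (s : Set L)
  have hfin : FiniteDimensional K L' := IntermediateField.finiteDimensional_adjoin
    fun y _ => (Algebra.IsAlgebraic.isAlgebraic y).isIntegral
  have hle : adjoin F (s : Set L) ≤ L'.restrictScalars F := by
    rw [adjoin_le_iff]
    exact subset_adjoin K _
  let g : adjoin F (s : Set L) →ₐ[F] L' := IntermediateField.inclusion hle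
  let k : L' →ₐ[F] L := L'.val.restrictScalars F
  have hL' : 𝓜.Has L' := by
    refine 𝓜.fin (IsScalarTower.toAlgHom F K L') ?_ h
    exact (RingHom.finite_algebraMap (A := K) (B := L')).2 hfin
  obtain ⟨e'⟩ := 𝓜.comp g k X
  exact ⟨_, 𝓜.bc k, (𝓜.bc g).F.obj X, hL', ⟨e' ≪≫ e⟩⟩

/-- Reduction to a universal domain, and to purely transcendental extensions. -/
theorem FieldMotives.universal (Ω : Type x) [Field Ω] [Algebra F Ω] [IsAlgClosed Ω]
    (hΩ : InfTr F Ω) :
    List.TFAE [𝓜.Has Ω,
      ∀ (K : Type x) [Field K] [Algebra F K], 𝓜.Has K,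
      ∀ (K : Type x) [Field K] [Algebra F K], PurelyTr F K → 𝓜.Has K] := by
  tfae_have 1 → 2 := by
    intro h K _ _
    refine 𝓜.of_fg K fun s => ?_
    have : Algebra.EssFiniteType F (adjoin F (s : Set K)) :=
      (IntermediateField.essFiniteType_iff).2 ⟨s, rfl⟩
    obtain ⟨f⟩ := exists_emb (F := F) (adjoin F (s : Set K)) Ω hΩ
    exact 𝓜.desc f h
  tfae_have 2 → 3 := fun h K _ _ _ => h K
  tfae_have 3 → 1 := by
    intro h
    refine 𝓜.of_fg Ω fun s => ?_
    have : Algebra.EssFiniteType F (adjoin F (s : Set Ω)) :=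
      (IntermediateField.essFiniteType_iff).2 ⟨s, rfl⟩
    obtain ⟨t, ht, hfin⟩ := exists_base (F := F) (adjoin F (s : Set Ω))
    have h1 : 𝓜.Has (adjoin F (t : Set (adjoin F (s : Set Ω)))) := h _ (purelyTr_adjoin t ht.1)
    refine 𝓜.fin (adjoin F (t : Set (adjoin F (s : Set Ω)))).val ?_ h1
    exact (RingHom.finite_algebraMap (A := adjoin F (t : Set (adjoin F (s : Set Ω))))
      (B := adjoin F (s : Set Ω))).2 hfin
  tfae_finish

end Pool.Agent.U435.UD
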